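import Pool.Agent.helper87.TR.Spec

/-!
Row tr:T3: the shape of the degrees of a reduced basis.
-/

namespace Pool.Agent.helper87.TR

open Polynomial Finset Module FP97
open Pool.Agent.helper97.FP

theorem T3 (h2 : T2_stmt) (hS : TS_stmt) (hC1 : C1_stmt) (hC2 : C2_stmt) : T3_stmt := by
  intro ι a c K δ ha hc
  have hc0 : ∀ k ∈ K, c k ≠ 0 := by
    intro k hk h0
    apply hc k hk
    rw [h0]
    simp
  obtain ⟨F, g, hG, h01, h12, hg⟩ := hS ι a c K δ ha hc0
  have hsum := hG.sum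
  have hg0 := hg 0
  have hg1 := hg 1
  have hg2 := hg 2
  have hv0 : ((0 : Fin 3) : ℕ) = 0 := rfl
  have hv1 : ((1 : Fin 3) : ℕ) = 1 := rfl
  have hv2 : ((2 : Fin 3) : ℕ) = 2 := rfl
  rw [hv0, zero_mul, add_zero] at hg0
  rw [hv1, one_mul] at hg1
  rw [hv2] at hg2
  have h1 := hC1 ι a c K δ ha hc F g hG h01 h12
  obtain ⟨h3, h4⟩ := hC2 ι a c K δ ha hc0 F g hG h01 h12
  have h5 := (h2 ι a c K δ ha F g hG).2
  generalize hH : (K.filter fun k => c k 2 = 0).card = H at h3 h4 ⊢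
  refine ⟨K.card - g 0, g 2 - 2 * δ, by omega, by omega, by omega, ?_, ?_⟩
  · rcases Nat.lt_or_ge (K.card + δ) (g 2) with h | h
    · left
      have := h4 h
      omega
    · right
      omega
  · intro m
    rw [h5 m]
    have e0 : K.card - (K.card - g 0) = g 0 := by omega
    have e1 : K.card + δ - (g 2 - 2 * δ - (K.card - g 0)) = g 1 := by omega
    have e2 : 2 * δ + (g 2 - 2 * δ) = g 2 := by omega
    rw [e0, e1, e2]

end Pool.Agent.helper87.TR
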